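import Pool.Agent.Y678.AU.Tree

/-!
# All sets below the next inaccessible cardinal without the tree property
-/

set_option autoImplicit false
set_option linter.unusedSectionVars false
set_option linter.unusedVariables false
set_option linter.style.haveILetI false

universe u

namespace Pool.Agent.Y678.AU

open Set
open Cardinal hiding univ
open Pool.Agent.W869.AV hiding few_meet card_of_trace few_down exists_many card_G card_F card_union card_al exists_split few_up few_exact few_members tr_univ tr_of_card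

variable {κ μ : Cardinal.{u}} {Λ : Type u} [Fact (ℵ₀ ≤ κ)]

/-- An automorphism which is trivial on all sets of size `κ` is trivial on each set `X` such that
all inaccessible cardinals `c` with `κ < c ≤ #X` have the tree property. -/
theorem tr_all (hκ : ℵ₀ ≤ κ) {π : Aut κ Λ} (hπ : Loc π) (ν : Cardinal.{u}) :
    ∀ X : Set Λ, #X = ν → (∀ c, κ < c → c ≤ ν → c.IsInaccessible → TreeProp c) → Tr π X := by
  classical
  induction ν using WellFoundedLT.induction with
  | ind ν ih =>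
  intro X hX hin
  by_cases hle : #X ≤ κ
  · exact hπ.le hκ hle
  have hlt : κ < ν := by rw [← hX]; exact not_le.1 hle
  have hℵ : ℵ₀ ≤ ν := hκ.trans hlt.le
  have hL : ∀ μ, μ < ν → LocL μ π := fun μ hμ X' hX' => ih #X' (hX'.trans_lt hμ) X' rfl
    fun c h1 h2 => hin c h1 (h2.trans (hX'.trans hμ.le))
  by_cases h : ∃ μ < ν, ν ≤ 2 ^ μ
  · obtain ⟨μ₀, hμ₀, hν⟩ := h
    have hμ : max μ₀ κ < ν := max_lt hμ₀ hlt
    have h1 : #X ≤ #(Set (max μ₀ κ).ord.ToType) := by
      rw [Cardinal.mk_set, Cardinal.mk_ord_toType, hX]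
      exact hν.trans (Cardinal.power_le_power_left two_ne_zero (le_max_left _ _))
    obtain ⟨T⟩ := h1
    haveI : Nonempty (max μ₀ κ).ord.ToType := by
      rw [← Cardinal.mk_ne_zero_iff, Cardinal.mk_ord_toType]
      exact (Cardinal.aleph0_pos.trans_le (hκ.trans (le_max_right _ _))).ne'
    refine tr_of_codes hκ (le_max_right μ₀ κ) (hL _ hμ) (Cardinal.mk_ord_toType _).le
      (fun x => if hx : x ∈ X then T ⟨x, hx⟩ else ∅) ?_
    intro x hx y hy hxy
    simp only [dif_pos hx, dif_pos hy] at hxy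
    exact congrArg Subtype.val (T.injective hxy)
  · push Not at h
    by_cases hcof' : ν.ord.cof = ν
    · have hinν : ν.IsInaccessible := ⟨hκ.trans_lt hlt, hcof'.ge, fun x hx => h x hx⟩
      exact tr_of_tree hκ hlt hinν (hin ν hlt le_rfl hinν) hL hX
    have hcof : ν.ord.cof < ν :=
      lt_of_le_of_ne ((Ordinal.cof_le_card _).trans (Cardinal.card_ord ν).le) hcof'
    obtain ⟨I, hI, hIc⟩ := Order.exists_cof_eq ν.ord.ToType
    rw [Ordinal.cof_toType] at hIc
    have h2 : #X ≤ #(ν.ord.ToType) := by rw [Cardinal.mk_ord_toType]; exact hX.le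
    obtain ⟨r⟩ := h2
    have h3 : ∀ y : X, ∃ i : I, r y ≤ i.1 := by
      intro y
      obtain ⟨i, hi, hy⟩ := hI (r y)
      exact ⟨⟨i, hi⟩, hy⟩
    choose w hw using h3
    have hμ : max (ν.ord.cof) κ < ν := max_lt hcof hlt
    have hne : Nonempty I := by
      have h4 : Nonempty X := by
        rw [← Cardinal.mk_ne_zero_iff, hX]
        exact (Cardinal.aleph0_pos.trans_le hℵ).ne'
      obtain ⟨x⟩ := h4
      exact ⟨w x⟩
    refine tr_of_pieces hκ (le_max_right (ν.ord.cof) κ) (hL _ hμ) (K := I)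
      (hIc.le.trans (le_max_left _ _))
      (fun x => if hx : x ∈ X then w ⟨x, hx⟩ else Classical.arbitrary I) fun i => ?_
    have h5 : #{x ∈ X | (if hx : x ∈ X then w ⟨x, hx⟩ else Classical.arbitrary I) = i} < ν := by
      have h6 := Cardinal.mk_Iic_lt i.1 (by
        rw [Cardinal.mk_ord_toType]
        exact (Ordinal.type_toType _).symm) (by rw [Cardinal.mk_ord_toType]; exact hℵ)
      rw [Cardinal.mk_ord_toType] at h6
      refine lt_of_le_of_lt ?_ h6
      refine Cardinal.mk_le_of_injective (f := fun y : {x ∈ X |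
        (if hx : x ∈ X then w ⟨x, hx⟩ else Classical.arbitrary I) = i} =>
        (⟨r ⟨y.1, y.2.1⟩, ?_⟩ : Iic i.1)) ?_
      · have h7 := y.2.2
        rw [dif_pos y.2.1] at h7
        have h9 := hw ⟨y.1, y.2.1⟩
        rw [h7] at h9
        exact h9
      · intro y y' hyy
        have h7 := r.injective (congrArg Subtype.val hyy)
        have h8 : (y : Λ) = y' := congrArg (fun z : X => (z : Λ)) h7
        exact Subtype.ext h8
    exact hL _ h5 _ le_rfl

theorem trivialOn_of_tr (hκ : ℵ₀ ≤ κ) {φ : Quo κ hκ Λ ≃o Quo κ hκ Λ} {ρ : Aut κ Λ}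
    (hρ : ∀ A, φ (cls hκ A) = cls hκ (ρ.F A)) {A : Set Λ} (h : Tr ρ A) : IsTrivialOn φ A := by
  classical
  obtain ⟨e, he⟩ := h
  obtain ⟨R, hRA, hinj, hR⟩ := exists_inj hκ he
  -- images of subsets
  have key : ∀ X ⊆ A, φ (cls hκ X) = cls hκ (e '' (X ∩ R)) := by
    intro X hX
    rw [hρ, cls_eq_iff]
    have h1 := he X hX
    have h2 : Al κ (e '' X) (e '' (X ∩ R)) := by
      refine sm_mono ?_ (sm_image e (sm_mono (sdiff_subset_sdiff_left hX) hR))
      rintro _ ⟨⟨x, hx, rfl⟩, hx'⟩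
      refine ⟨x, ⟨hx, fun h => hx' ⟨x, ⟨hx, h⟩, rfl⟩⟩, rfl⟩
    exact ⟨h1.1.trans hκ h2, (Al.of_subset (image_mono inter_subset_left)).trans hκ h1.2⟩
  choose! s hs hs' using fun y (hy : y ∈ e '' R) => hy
  refine ⟨e '' R, ?_, fun b => ⟨s b.1, hRA (hs b.1 b.2)⟩, fun X => ?_⟩
  · rw [key A subset_rfl, inter_eq_self_of_subset_right hRA]
  · have hXA : Subtype.val '' X ⊆ A := by
      rintro _ ⟨x, -, rfl⟩
      exact x.2
    rw [key _ hXA]
    congr 1
    ext b
    constructor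
    · rintro ⟨x, ⟨⟨y, hy, rfl⟩, hxR⟩, rfl⟩
      refine ⟨⟨e y.1, y.1, hxR, rfl⟩, ?_, rfl⟩
      have h1 : s (e y.1) = y.1 := hinj (hs _ ⟨y.1, hxR, rfl⟩) hxR (hs' _ ⟨y.1, hxR, rfl⟩)
      show (⟨s (e y.1), _⟩ : A) ∈ X
      have h2 : (⟨s (e y.1), hRA (hs _ ⟨y.1, hxR, rfl⟩)⟩ : A) = y := Subtype.ext h1
      rw [h2]
      exact hy
    · rintro ⟨b', hb', rfl⟩
      exact ⟨s b'.1, ⟨⟨_, hb', rfl⟩, hs b'.1 b'.2⟩, hs' b'.1 b'.2⟩

/-- Local form. -/
theorem trivialOn_all {hκ : ℵ₀ ≤ κ} (φ : Quo κ hκ Λ ≃o Quo κ hκ Λ)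
    (h : ∀ A : Set Λ, #A = κ → IsTrivialOn φ A) (A : Set Λ)
    (hA : ∀ c, κ < c → c ≤ #A → c.IsInaccessible → TreeProp c) : IsTrivialOn φ A := by
  obtain ⟨ρ, hρ⟩ := exists_aut φ
  exact trivialOn_of_tr hκ hρ (tr_all hκ (fun A hA => tr_of_trivialOn hρ (h A hA)) #A A rfl hA)

/-- Global form. -/
theorem trivial_all {hκ : ℵ₀ ≤ κ} (φ : Quo κ hκ Λ ≃o Quo κ hκ Λ)
    (hΛ : ∀ c, κ < c → c ≤ #Λ → c.IsInaccessible → TreeProp c)
    (h : ∀ A : Set Λ, #A = κ → IsTrivialOn φ A) : IsTrivial φ := by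
  obtain ⟨ρ, hρ⟩ := exists_aut φ
  exact trivial_of_tr hρ (tr_all hκ (fun A hA => tr_of_trivialOn hρ (h A hA)) #Λ univ
    Cardinal.mk_univ hΛ)

end Pool.Agent.Y678.AU
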