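import Pool.Agent.W869.AV.Wrap

/-!
# Automorphisms which are trivial on all sets of size at most `μ`

The lemmas of the library `Pool.Agent.W869.AV` (sets of size `κ`, exceptional sets of size at most
`κ`) with exceptional sets of size at most `μ`, where `μ` is any cardinal with `κ ≤ μ`.
-/

set_option autoImplicit false
set_option linter.unusedSectionVars false
set_option linter.unusedVariables false
set_option linter.style.haveILetI false

universe u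

namespace Pool.Agent.Y678.AU

open Set
open Cardinal hiding univ
open Pool.Agent.W869.AV hiding few_meet card_of_trace few_down exists_many card_G card_F card_union card_al exists_split few_up few_exact few_members tr_univ tr_of_card

variable {κ μ : Cardinal.{u}} {Λ : Type u} [Fact (ℵ₀ ≤ κ)]

/-- The automorphism is trivial on all sets of size at most `μ`. -/
def LocL (μ : Cardinal.{u}) (π : Aut κ Λ) : Prop := ∀ X : Set Λ, #X ≤ μ → Tr π X

theorem LocL.loc {π : Aut κ Λ} (h : LocL μ π) (hμ : κ ≤ μ) : Loc π := fun X hX => h X (hX.trans_le hμ)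

section

variable (hκ : ℵ₀ ≤ κ) (hμ : κ ≤ μ) {π : Aut κ Λ} {e E : Λ → Λ}

include hκ hμ

theorem card_union {A B : Set Λ} (hA : #A ≤ μ) (hB : #B ≤ μ) : #(A ∪ B : Set Λ) ≤ μ :=
  (Cardinal.mk_union_le _ _).trans ((add_le_add hA hB).trans (Cardinal.add_eq_self (hκ.trans hμ)).le)

theorem card_al {A B : Set Λ} (h : Al κ A B) (hB : #B ≤ μ) : #A ≤ μ := by
  refine (Cardinal.mk_le_mk_of_subset (t := A \ B ∪ B) ?_).trans
    (card_union hκ hμ (show #(A \ B : Set Λ) ≤ μ from h.le.trans hμ) hB)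
  intro x hx
  by_cases h : x ∈ B
  · exact Or.inr h
  · exact Or.inl ⟨hx, h⟩

/-- Few members of a disjoint family meet a set of size at most `μ`. -/
theorem few_meet {S : Set (Set Λ)} (hd : ∀ Y ∈ S, ∀ Y' ∈ S, Y ≠ Y' → Disjoint Y Y') {U : Set Λ}
    (hU : #U ≤ μ) : #{Y ∈ S | (Y ∩ U).Nonempty} ≤ μ :=
  (card_family (fun Y hY Y' hY' => hd Y hY.1 Y' hY'.1) fun Y hY => hY.2).trans hU

/-- Sets with small traces on the images of a covering family of at most `μ` sets. -/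
theorem card_of_trace {K : Type u} (hK : #K ≤ μ) (g : Λ → K) {Z : Set Λ}
    (hZ : ∀ n, #(π.G (Z ∩ π.F {x | g x = n} : Set Λ)) ≤ μ) : #(π.G Z) ≤ μ := by
  have h1 : ∀ n, #(π.G Z ∩ {x | g x = n} : Set Λ) ≤ μ := by
    intro n
    refine card_al hκ hμ ?_ (hZ n)
    rw [π.le_iff]
    refine Al.trans hκ ?_ (π.FG' _)
    have h2 : Al κ (π.F (π.G Z ∩ {x | g x = n})) Z :=
      ((π.le_iff _ _).1 (Al.of_subset inter_subset_left)).trans hκ (π.FG Z)
    have h3 : Al κ (π.F (π.G Z ∩ {x | g x = n})) (π.F {x | g x = n}) :=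
      (π.le_iff _ _).1 (Al.of_subset inter_subset_right)
    refine sm_mono ?_ (sm_union hκ h2 h3)
    rintro x ⟨hx, hx'⟩
    by_cases hxZ : x ∈ Z
    · by_cases hxF : x ∈ π.F {x | g x = n}
      · exact (hx' ⟨hxZ, hxF⟩).elim
      · exact Or.inr ⟨hx, hxF⟩
    · exact Or.inl ⟨hx, hxZ⟩
  refine (Cardinal.mk_le_mk_of_subset (t := ⋃ n, (π.G Z ∩ {x | g x = n} : Set Λ)) ?_).trans
    (Helper669.KDelta.small_iUnion (hκ.trans hμ) hK _ h1)
  intro x hx
  exact mem_iUnion.2 ⟨g x, hx, rfl⟩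

/-- The main lemma. -/
theorem few_down {K : Type u} [LinearOrder K] [WellFoundedLT K] {g g' : Λ → K} {N : Set Λ}
    (ha : ∀ y, y ∉ N → y ∈ π.F {x | g x = g' y})
    (hb : ∀ Z : K → Set Λ, (∀ m, Sm κ (Z m)) → (∀ m, ∀ y ∈ Z m, g' y = m ∧ y ∉ N) →
      #(π.G (N ∪ ⋃ m, Z m)) ≤ μ)
    {S : Set (Set Λ)} (hd : ∀ Y ∈ S, ∀ Y' ∈ S, Y ≠ Y' → Disjoint Y Y')
    (hE : ∀ Y ∈ S, Good π E Y) :
    #{Y ∈ S | ¬ Sm κ {x ∈ Y | g' (E x) < g x}} ≤ μ := by
  obtain ⟨A, hA⟩ := exists_rec g g' E π.F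
  let Z : K → Set Λ := fun m =>
    {y | g' y = m ∧ y ∉ N ∧ ¬ (y ∈ π.F A ↔ y ∈ π.F {z ∈ A | g z = m})}
  have hZs : ∀ m, Sm κ (Z m) := by
    intro m
    have h1 : Al κ (π.F {z ∈ A | g z = m}) (π.F A) :=
      (π.le_iff _ _).1 (Al.of_subset fun x hx => hx.1)
    have h2 : Sm κ ((π.F A ∩ π.F {x | g x = m}) \ π.F (A ∩ {x | g x = m}) : Set Λ) :=
      inter_F hκ A {x | g x = m}
    refine sm_mono ?_ (sm_union hκ h1 h2)
    rintro y ⟨hy, hyN, hne⟩
    have h3 : y ∈ π.F {x | g x = m} := hy ▸ ha y hyN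
    by_cases h4 : y ∈ π.F A
    · refine Or.inr ⟨⟨h4, h3⟩, fun h5 => hne ⟨fun _ => h5, fun _ => h4⟩⟩
    · by_cases h5 : y ∈ π.F {z ∈ A | g z = m}
      · exact Or.inl ⟨h5, h4⟩
      · exact (hne ⟨fun h => (h4 h).elim, fun h => (h5 h).elim⟩).elim
  have hU := hb Z hZs fun m y hy => ⟨hy.1, hy.2.1⟩
  refine le_trans (Cardinal.mk_le_mk_of_subset ?_) (few_meet hκ hμ hd hU)
  rintro Y ⟨hY, hns⟩
  refine ⟨hY, ?_⟩
  by_contra hcon
  apply hns
  have h1 := (hE Y hY).side' hκ (N ∪ ⋃ m, Z m)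
  have h2 := (hE Y hY).side hκ A
  refine sm_mono ?_ (sm_union hκ h1 h2)
  rintro x ⟨hx, hlt⟩
  have h3 : x ∉ π.G (N ∪ ⋃ m, Z m) := fun h => hcon ⟨x, hx, h⟩
  by_cases h4 : E x ∈ N ∪ ⋃ m, Z m
  · exact Or.inl ⟨hx, fun h => h3 (h.2 h4)⟩
  · refine Or.inr ⟨hx, fun h5 => ?_⟩
    have h6 : E x ∉ N := fun h => h4 (Or.inl h)
    have h7 : E x ∈ π.F A ↔ E x ∈ π.F {z ∈ A | g z = g' (E x)} := by
      by_contra h8
      exact h4 (Or.inr (mem_iUnion.2 ⟨g' (E x), rfl, h6, h8⟩))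
    have h8 := hA x
    by_cases h9 : x ∈ A
    · exact (h8.1 h9).2 (h7.1 (h5.1 h9))
    · refine h9 (h8.2 ⟨hlt, fun h10 => h9 (h5.2 (h7.2 h10))⟩)

/-- Many sets of size `κ`. -/
theorem exists_many {C : Set Λ} (hC : ¬ #C ≤ μ) :
    ∃ S : Set (Set Λ), (∀ Y ∈ S, Y ⊆ C ∧ #Y = κ) ∧
      (∀ Y ∈ S, ∀ Y' ∈ S, Y ≠ Y' → Disjoint Y Y') ∧ ¬ #S ≤ μ := by
  obtain ⟨S, hS, hd, hmax⟩ := exists_family (fun Y : Set Λ => #Y = κ) C (by
    intro Y hY
    by_contra hcon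
    rw [not_nonempty_iff_eq_empty] at hcon
    apply not_small_of hY
    rw [hcon]
    exact sm_empty)
  refine ⟨S, hS, hd, fun hSc => ?_⟩
  have h1 : #(⋃₀ S : Set Λ) ≤ μ := by
    refine (card_sUnion fun Y hY => (hS Y hY).2.le).trans ?_
    refine (mul_le_mul' hSc hμ).trans ?_
    exact (Cardinal.mul_eq_self (hκ.trans hμ)).le
  have h2 : ¬ Sm κ (C \ ⋃₀ S) := by
    intro h
    apply hC
    have h3 : #C ≤ #(C \ ⋃₀ S ∪ ⋃₀ S : Set Λ) := Cardinal.mk_le_mk_of_subset (by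
      intro x hx
      by_cases h4 : x ∈ ⋃₀ S
      · exact Or.inr h4
      · exact Or.inl ⟨hx, h4⟩)
    refine h3.trans ((Cardinal.mk_union_le _ _).trans ?_)
    exact (add_le_add (h.le.trans hμ) h1).trans (Cardinal.add_eq_self (hκ.trans hμ)).le
  obtain ⟨Y, hY, hYc⟩ := exists_sub h2
  exact hmax Y hYc hY

end

/-- Preimages of sets of size at most `μ` have size at most `μ`. -/
theorem card_G (hκ : ℵ₀ ≤ κ) {π : Aut κ Λ} (hπ : Loc π) (μ : Cardinal.{u}) :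
    κ ≤ μ → ∀ V : Set Λ, #V ≤ μ → #(π.G V) ≤ μ := by
  classical
  induction μ using WellFoundedLT.induction with
  | ind μ ih =>
  intro hμ V hV
  rcases hμ.eq_or_lt with heq | hlt
  · subst heq
    exact Pool.Agent.W869.AV.card_G hκ hπ hV
  have hG : ∀ W : Set Λ, #W < μ → #(π.G W) ≤ μ := by
    intro W hW
    exact (ih (max #W κ) (max_lt hW hlt) (le_max_right _ _) W (le_max_left _ _)).trans
      (max_le hW.le hμ)
  have hIic : ∀ i : μ.ord.ToType, #(Iic i) < μ := by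
    intro i
    have h5 := Cardinal.mk_Iic_lt i (by
      rw [Cardinal.mk_ord_toType]
      exact (Ordinal.type_toType _).symm) (by rw [Cardinal.mk_ord_toType]; exact hκ.trans hμ)
    rwa [Cardinal.mk_ord_toType] at h5
  have hK : #(μ.ord.ToType) ≤ μ := (Cardinal.mk_ord_toType μ).le
  by_contra hcon
  obtain ⟨S, hS, hd, hSc⟩ := exists_many hκ hμ hcon
  obtain ⟨E, hE⟩ := family_fun hκ (π := π) (P := fun _ _ => True) hd (by
    intro Y hY
    obtain ⟨e, he⟩ := hπ Y (hS Y hY).2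
    exact ⟨(hS Y hY).2, e, he, fun _ _ => trivial⟩)
  obtain ⟨v, hv⟩ : ∃ v : Λ → μ.ord.ToType, ∀ n, #{y ∈ V | v y ≤ n} < μ := by
    have h2 : #V ≤ #(μ.ord.ToType) := by rw [Cardinal.mk_ord_toType]; exact hV
    obtain ⟨r⟩ := h2
    haveI : Nonempty μ.ord.ToType := by
      rw [← Cardinal.mk_ne_zero_iff, Cardinal.mk_ord_toType]
      exact (Cardinal.aleph0_pos.trans_le (hκ.trans hμ)).ne'
    refine ⟨fun y => if h : y ∈ V then r ⟨y, h⟩ else Classical.arbitrary _, fun n => ?_⟩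
    refine lt_of_le_of_lt ?_ (hIic n)
    refine Cardinal.mk_le_of_injective (f := fun y : {y ∈ V |
      (if h : y ∈ V then r ⟨y, h⟩ else Classical.arbitrary (μ.ord.ToType)) ≤ n} =>
      (⟨r ⟨y.1, y.2.1⟩, ?_⟩ : Iic n)) ?_
    · have h3 := y.2.2
      rw [dif_pos y.2.1] at h3
      exact h3
    · intro y y' hyy
      have h3 := r.injective (congrArg Subtype.val hyy)
      have h4 : (y : Λ) = y' := congrArg (fun z : V => (z : Λ)) h3
      exact Subtype.ext h4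
  let g : Λ → μ.ord.ToType := fun x => v (E x)
  let N : Set Λ := {y | ∀ n, y ∉ π.F {x | g x = n}}
  have hex : ∀ y, ∃ n : μ.ord.ToType, y ∉ N →
      y ∈ π.F {x | g x = n} ∧ ∀ m, y ∈ π.F {x | g x = m} → n ≤ m := by
    intro y
    by_cases hy : y ∈ N
    · exact ⟨v y, fun h => (h hy).elim⟩
    · have h1 : {n | y ∈ π.F {x | g x = n}}.Nonempty := by
        by_contra h2
        rw [not_nonempty_iff_eq_empty] at h2
        exact hy fun n hn => (h2 ▸ (show n ∈ {n | y ∈ π.F {x | g x = n}} from hn) :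
          n ∈ (∅ : Set (μ.ord.ToType)))
      exact ⟨(wellFounded_lt (α := μ.ord.ToType)).min _ h1, fun _ =>
        ⟨(wellFounded_lt (α := μ.ord.ToType)).min_mem _ h1, fun m hm =>
          not_lt.1 ((wellFounded_lt (α := μ.ord.ToType)).not_lt_min _ hm)⟩⟩
  choose g' hg' using hex
  have hNF : ∀ n y, y ∈ π.F {x | g x = n} → y ∉ N := fun n y hy h => h n hy
  have hb : ∀ Z : μ.ord.ToType → Set Λ, (∀ m, Sm κ (Z m)) →
      (∀ m, ∀ y ∈ Z m, g' y = m ∧ y ∉ N) → #(π.G (N ∪ ⋃ m, Z m)) ≤ μ := by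
    intro Z hZ hZ'
    refine card_of_trace hκ hμ hK g fun n => hG _ ?_
    refine lt_of_le_of_lt (Cardinal.mk_le_mk_of_subset (t := ⋃ m : Iic n, Z m.1) ?_) ?_
    · rintro y ⟨hy | hy, hyF⟩
      · exact (hNF n y hyF hy).elim
      · obtain ⟨m, hm⟩ := mem_iUnion.1 hy
        have h1 := (hg' y (hZ' m y hm).2).2 n hyF
        rw [(hZ' m y hm).1] at h1
        exact mem_iUnion.2 ⟨⟨m, h1⟩, hm⟩
    · refine (Cardinal.mk_iUnion_le _).trans_lt ?_
      refine (mul_le_mul' le_rfl (ciSup_le' fun m : Iic n => (hZ m.1).le)).trans_lt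
        (Cardinal.mul_lt_of_lt (hκ.trans hμ) (hIic n) hlt)
  have h1 := few_down hκ hμ (fun y hy => (hg' y hy).1) hb hd (fun Y hY => (hE Y hY).1)
  let Q : Set Λ := {y ∈ V | v y ≤ g' y}
  have hQ : #(π.G Q) ≤ μ := by
    refine card_of_trace hκ hμ hK g fun n => hG _ (lt_of_le_of_lt (Cardinal.mk_le_mk_of_subset ?_)
      (hv n))
    rintro y ⟨⟨hy, hyv⟩, hyF⟩
    exact ⟨hy, hyv.trans ((hg' y (hNF n y hyF)).2 n hyF)⟩
  have h2 := few_meet hκ hμ hd hQ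
  apply hSc
  refine (Cardinal.mk_le_mk_of_subset (t := {Y ∈ S | ¬ Sm κ {x ∈ Y | g' (E x) < g x}} ∪
    {Y ∈ S | (Y ∩ π.G Q).Nonempty}) ?_).trans ((Cardinal.mk_union_le _ _).trans
    ((add_le_add h1 h2).trans (Cardinal.add_eq_self (hκ.trans hμ)).le))
  intro Y hY
  by_cases h3 : Sm κ {x ∈ Y | g' (E x) < g x}
  · refine Or.inr ⟨hY, ?_⟩
    by_contra h4
    have h5 := (hE Y hY).1.side' hκ V
    have h6 := (hE Y hY).1.side' hκ Q
    refine not_small_of (hS Y hY).2 (sm_mono ?_ (sm_union hκ h3 (sm_union hκ h5 h6)))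
    intro x hx
    have h7 : x ∉ π.G Q := fun h => h4 ⟨x, hx, h⟩
    have h8 : x ∈ π.G V := (hS Y hY).1 hx
    by_cases h9 : g' (E x) < g x
    · exact Or.inl ⟨hx, h9⟩
    · by_cases h10 : E x ∈ V
      · refine Or.inr (Or.inr ⟨hx, fun h => h7 (h.2 ⟨h10, not_lt.1 h9⟩)⟩)
      · exact Or.inr (Or.inl ⟨hx, fun h => h10 (h.1 h8)⟩)
  · exact Or.inl ⟨hY, h3⟩

section

variable (hκ : ℵ₀ ≤ κ) (hμ : κ ≤ μ) {π : Aut κ Λ} {e E : Λ → Λ}

include hκ hμ

/-- Images of sets of size at most `μ` have size at most `μ`. -/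
theorem card_F (hπ : LocL μ π) {V : Set Λ} (hV : #V ≤ μ) : #(π.F V) ≤ μ := by
  obtain ⟨e, he⟩ := hπ V hV
  have h1 := (he V subset_rfl).1
  exact card_al hκ hμ h1 (Cardinal.mk_image_le.trans hV)

theorem card_of_trace_sm (hπ : Loc π) {K : Type u} (hK : #K ≤ μ) (g : Λ → K) {Z : Set Λ}
    (hZ : ∀ n, Sm κ (Z ∩ π.F {x | g x = n} : Set Λ)) : #(π.G Z) ≤ μ :=
  card_of_trace hκ hμ hK g fun n => card_G hκ hπ μ hμ _ ((hZ n).le.trans hμ)

/-- A description of the images of the pieces of a partition. -/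
theorem exists_split (hπ : LocL μ π) {K : Type u} (hK : #K ≤ μ) (g : Λ → K) :
    ∃ (g' : Λ → K) (N : Set Λ), #N ≤ μ ∧
      ∀ y, y ∉ N → ∀ n, g' y = n ↔ y ∈ π.F {x | g x = n} := by
  classical
  let R : Set Λ := {y | ∀ n, y ∉ π.F {x | g x = n}}
  let O : Set Λ := ⋃ p : K × K, {y | p.1 ≠ p.2 ∧ y ∈ π.F {x | g x = p.1} ∩ π.F {x | g x = p.2}}
  have hO : #O ≤ μ := by
    refine Helper669.KDelta.small_iUnion (hκ.trans hμ) ?_ _ fun p => ?_
    · rw [Cardinal.mk_prod, Cardinal.lift_id]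
      exact (mul_le_mul' hK hK).trans (Cardinal.mul_eq_self (hκ.trans hμ)).le
    · by_cases hp : p.1 = p.2
      · have : {y | p.1 ≠ p.2 ∧ y ∈ π.F {x | g x = p.1} ∩ π.F {x | g x = p.2}} = ∅ := by
          ext y
          simp [hp]
        rw [this, Cardinal.mk_eq_zero]
        exact zero_le
      · have h1 : Sm κ (π.F {x | g x = p.1} ∩ π.F {x | g x = p.2} : Set Λ) := by
          refine π.disj hκ ?_
          have : ({x | g x = p.1} ∩ {x | g x = p.2} : Set Λ) = ∅ := by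
            ext x
            simp only [mem_inter_iff, mem_ofPred_eq, mem_empty_iff_false, iff_false, not_and]
            intro h1 h2
            exact hp (h1 ▸ h2)
          rw [this]
          exact sm_empty
        exact (Cardinal.mk_le_mk_of_subset fun y hy => hy.2).trans (h1.le.trans hμ)
  have hR : #R ≤ μ := by
    have h1 : #(π.G R) ≤ μ := by
      refine card_of_trace_sm hκ hμ (hπ.loc hμ) hK g fun n => ?_
      have : (R ∩ π.F {x | g x = n} : Set Λ) = ∅ := by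
        ext y
        simp only [mem_inter_iff, mem_empty_iff_false, iff_false, not_and]
        exact fun h => h n
      rw [this]
      exact sm_empty
    exact card_al hκ hμ (π.FG' R) (card_F hκ hμ hπ h1)
  refine ⟨fun y => if h : ∃ n, y ∈ π.F {x | g x = n} then h.choose else g y, R ∪ O,
    card_union hκ hμ hR hO, fun y hy n => ?_⟩
  have h1 : ∃ n, y ∈ π.F {x | g x = n} := by
    by_contra h
    push Not at h
    exact hy (Or.inl h)
  show (if h : ∃ n, y ∈ π.F {x | g x = n} then h.choose else g y) = n ↔ _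
  rw [dif_pos h1]
  constructor
  · intro h
    have h2 := h1.choose_spec
    rwa [h] at h2
  · intro h
    by_contra h2
    exact hy (Or.inr (mem_iUnion.2 ⟨(h1.choose, n), h2, h1.choose_spec, h⟩))

theorem few_up (hπ : LocL μ π) {K : Type u} (hK : #K ≤ μ) [LinearOrder K] [WellFoundedLT K]
    {g g' : Λ → K} {N : Set Λ} (hN : #N ≤ μ)
    (hg : ∀ y, y ∉ N → ∀ n, g' y = n ↔ y ∈ π.F {x | g x = n})
    {S : Set (Set Λ)} (hd : ∀ Y ∈ S, ∀ Y' ∈ S, Y ≠ Y' → Disjoint Y Y')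
    (hE : ∀ Y ∈ S, Good π E Y) (hinj : InjOn E (⋃₀ S)) :
    #{Y ∈ S | ¬ Sm κ {x ∈ Y | g x < g' (E x)}} ≤ μ := by
  classical
  obtain ⟨E', hE'⟩ : ∃ E' : Λ → Λ, ∀ x ∈ ⋃₀ S, E' (E x) = x := by
    refine ⟨fun y => if h : ∃ x ∈ ⋃₀ S, E x = y then h.choose else y, fun x hx => ?_⟩
    have h1 : ∃ x' ∈ ⋃₀ S, E x' = E x := ⟨x, hx, rfl⟩
    show (if h : ∃ x' ∈ ⋃₀ S, E x' = E x then h.choose else E x) = x
    rw [dif_pos h1]
    exact hinj h1.choose_spec.1 hx h1.choose_spec.2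
  have hsub : ∀ Y ∈ S, Y ⊆ ⋃₀ S := fun Y hY => subset_sUnion_of_mem hY
  let N₁ : Set Λ := {y | y ∉ π.G {x | g' x = g y}}
  have hN₁ : #N₁ ≤ μ := by
    have hDn : ∀ n, #({y | g y = n} \ π.G {x | g' x = n} : Set Λ) ≤ μ := by
      intro n
      refine card_al hκ hμ (B := π.G N) ?_ (card_G hκ (hπ.loc hμ) μ hμ N hN)
      rw [π.le_iff]
      refine Al.trans hκ ?_ (π.FG' N)
      let D : Set Λ := {y | g y = n} \ π.G {x | g' x = n}
      have h1 : Al κ (π.F D) (π.F {y | g y = n}) :=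
        (π.le_iff _ _).1 (Al.of_subset sdiff_subset)
      have h2 : Sm κ (π.F D ∩ π.F (π.G {x | g' x = n}) : Set Λ) := by
        refine π.disj hκ ?_
        have : (D ∩ π.G {x | g' x = n} : Set Λ) = ∅ := sdiff_inter_self
        rw [this]
        exact sm_empty
      have h3 := π.FG' {x | g' x = n}
      refine sm_mono ?_ (sm_union hκ h1 (sm_union hκ h2 h3))
      rintro y ⟨hy, hyN⟩
      by_cases h4 : y ∈ π.F {y | g y = n}
      · have h5 : g' y = n := (hg y hyN n).2 h4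
        by_cases h6 : y ∈ π.F (π.G {x | g' x = n})
        · exact Or.inr (Or.inl ⟨hy, h6⟩)
        · exact Or.inr (Or.inr ⟨h5, h6⟩)
      · exact Or.inl ⟨hy, h4⟩
    refine (Cardinal.mk_le_mk_of_subset
      (t := ⋃ n, ({y | g y = n} \ π.G {x | g' x = n} : Set Λ)) ?_).trans
      (Helper669.KDelta.small_iUnion (hκ.trans hμ) hK _ hDn)
    intro y hy
    exact mem_iUnion.2 ⟨g y, rfl, hy⟩
  have h1 := few_down (π := π.symm hκ) (E := E') hκ hμ (g := g') (g' := g) (N := N₁)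
    (fun y hy => not_not.1 hy) (fun Z hZ _ => card_F hκ hμ hπ (card_union hκ hμ hN₁
      (Helper669.KDelta.small_iUnion (hκ.trans hμ) hK _ fun m => (hZ m).le.trans hμ)))
    (S := (fun Y => E '' Y) '' S) (by
      rintro _ ⟨Y, hY, rfl⟩ _ ⟨Y', hY', rfl⟩ hne
      have h2 : Y ≠ Y' := fun h => hne (h ▸ rfl)
      refine Set.disjoint_left.2 ?_
      rintro _ ⟨x, hx, rfl⟩ ⟨x', hx', heq⟩
      have h3 : x' = x := hinj (hsub Y' hY' hx') (hsub Y hY hx) heq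
      exact Set.disjoint_left.1 (hd Y hY Y' hY' h2) hx (h3 ▸ hx')) (by
      rintro _ ⟨Y, hY, rfl⟩
      exact (hE Y hY).symm hκ fun x hx => hE' x (hsub Y hY hx))
  refine le_trans ?_ h1
  refine Cardinal.mk_le_of_injective (f := fun Y :
    {Y ∈ S | ¬ Sm κ {x ∈ Y | g x < g' (E x)}} => (⟨E '' Y.1, ⟨Y.1, Y.2.1, rfl⟩, fun h => ?_⟩ :
    {Y ∈ (fun Y => E '' Y) '' S | ¬ Sm κ {x ∈ Y | g (E' x) < g' x}})) ?_
  · apply Y.2.2
    have h2 : InjOn E {x ∈ Y.1 | g x < g' (E x)} := hinj.mono fun x hx => hsub _ Y.2.1 hx.1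
    have h3 : #(E '' {x ∈ Y.1 | g x < g' (E x)}) = #{x ∈ Y.1 | g x < g' (E x)} :=
      Cardinal.mk_image_eq_of_injOn _ _ h2
    rw [Sm, ← h3]
    refine sm_mono ?_ h
    rintro _ ⟨x, ⟨hx, hx'⟩, rfl⟩
    refine ⟨⟨x, hx, rfl⟩, ?_⟩
    rw [hE' x (hsub _ Y.2.1 hx)]
    exact hx'
  · intro Y Y' heq
    have h2 : E '' Y.1 = E '' Y'.1 := congrArg Subtype.val heq
    exact Subtype.ext ((hinj.image_eq_image_iff (hsub _ Y.2.1) (hsub _ Y'.2.1)).1 h2)

/-- On most members of a disjoint family the values of `g` and `g'` agree. -/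
theorem few_exact (hπ : LocL μ π) {K : Type u} (hK : #K ≤ μ) [LinearOrder K] [WellFoundedLT K]
    {g g' : Λ → K} {N : Set Λ} (hN : #N ≤ μ)
    (hg : ∀ y, y ∉ N → ∀ n, g' y = n ↔ y ∈ π.F {x | g x = n})
    {S : Set (Set Λ)} (hd : ∀ Y ∈ S, ∀ Y' ∈ S, Y ≠ Y' → Disjoint Y Y')
    (hE : ∀ Y ∈ S, Good π E Y) (hinj : InjOn E (⋃₀ S)) :
    #{Y ∈ S | ¬ Sm κ {x ∈ Y | g' (E x) ≠ g x}} ≤ μ := by
  have h1 := few_up hκ hμ hπ hK hN hg hd hE hinj
  have h2 := few_down hκ hμ (g := g) (g' := g') (N := N) (fun y hy => (hg y hy _).1 rfl)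
    (fun Z hZ _ => card_G hκ (hπ.loc hμ) μ hμ _ (card_union hκ hμ hN
      (Helper669.KDelta.small_iUnion (hκ.trans hμ) hK _ fun m => (hZ m).le.trans hμ))) hd hE
  refine (Cardinal.mk_le_mk_of_subset (t := {Y ∈ S | ¬ Sm κ {x ∈ Y | g x < g' (E x)}} ∪
    {Y ∈ S | ¬ Sm κ {x ∈ Y | g' (E x) < g x}}) ?_).trans ((Cardinal.mk_union_le _ _).trans
    ((add_le_add h1 h2).trans (Cardinal.add_eq_self (hκ.trans hμ)).le))
  rintro Y ⟨hY, hYs⟩
  by_cases h3 : Sm κ {x ∈ Y | g x < g' (E x)}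
  · refine Or.inr ⟨hY, fun h4 => hYs (sm_mono ?_ (sm_union hκ h3 h4))⟩
    rintro x ⟨hx, hne⟩
    rcases lt_or_gt_of_ne hne with h | h
    · exact Or.inr ⟨hx, h⟩
    · exact Or.inl ⟨hx, h⟩
  · exact Or.inl ⟨hY, h3⟩

end

end Pool.Agent.Y678.AU
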