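import Pool.Agent.Y678.AU.Gen

/-!
# From sets of size `μ` to sets of size `2 ^ μ` and to unions of `μ` pieces
-/

set_option autoImplicit false
set_option linter.unusedSectionVars false
set_option linter.unusedVariables false
set_option linter.style.haveILetI false

universe u

namespace Pool.Agent.Y678.AU

open Set
open Cardinal hiding univ
open Pool.Agent.W869.AV hiding few_meet card_of_trace few_down exists_many card_G card_F card_union card_al exists_split few_up few_exact few_members tr_univ tr_of_card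

variable {κ μ : Cardinal.{u}} {Λ : Type u} [Fact (ℵ₀ ≤ κ)]

/-- A colouring with four colours for an injective function without fixed points. -/
theorem exists_col (D : Set Λ) (h : Λ → Λ) (hne : ∀ x ∈ D, h x ≠ x) (hinj : InjOn h D) :
    ∃ c : Λ → Bool × Bool, ∀ x ∈ D, c x ≠ c (h x) := by
  classical
  let r : Λ → Λ → Prop := WellOrderingRel
  have wf : WellFounded r := (WellOrderingRel.isWellOrder (α := Λ)).toIsWellFounded.wf
  let c1 : Λ → Bool := wf.fix fun x ih => if hx : x ∈ D ∧ r (h x) x then !(ih (h x) hx.2) else true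
  let c2 : Λ → Bool := wf.fix fun x ih =>
    if hx : ∃ z, z ∈ D ∧ h z = x ∧ r z x then !(ih hx.choose hx.choose_spec.2.2) else true
  have h1 : ∀ x, x ∈ D → r (h x) x → c1 x = !(c1 (h x)) := by
    intro x hx hr
    show wf.fix _ x = _
    rw [wf.fix_eq, dif_pos ⟨hx, hr⟩]
  have h2 : ∀ x, x ∈ D → r x (h x) → c2 (h x) = !(c2 x) := by
    intro x hx hr
    have hex : ∃ z, z ∈ D ∧ h z = h x ∧ r z (h x) := ⟨x, hx, rfl, hr⟩
    have hz : hex.choose = x := hinj hex.choose_spec.1 hx hex.choose_spec.2.1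
    have h3 : c2 (h x) = !(c2 hex.choose) := by
      show wf.fix _ (h x) = _
      rw [wf.fix_eq, dif_pos hex]
    rw [h3, hz]
  refine ⟨fun x => (c1 x, c2 x), fun x hx heq => ?_⟩
  have e1 : c1 x = c1 (h x) := congrArg Prod.fst heq
  have e2 : c2 x = c2 (h x) := congrArg Prod.snd heq
  rcases trichotomous_of r (h x) x with h4 | h4 | h4
  · have h5 := h1 x hx h4
    rw [e1] at h5
    cases h6 : c1 (h x) <;> simp [h6] at h5
  · exact hne x hx h4
  · have h5 := h2 x hx h4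
    rw [← e2] at h5
    cases h6 : c2 x <;> simp [h6] at h5

theorem card_union' (hμ : ℵ₀ ≤ μ) {α : Type u} {A B : Set α} (hA : #A ≤ μ) (hB : #B ≤ μ) :
    #(A ∪ B : Set α) ≤ μ :=
  (Cardinal.mk_union_le _ _).trans ((add_le_add hA hB).trans (Cardinal.add_eq_self hμ).le)

section

variable (hκ : ℵ₀ ≤ κ) (hμ : κ ≤ μ) {π : Aut κ Λ} {e E : Λ → Λ} {X : Set Λ}

include hκ

theorem exists_inj (he : Good π e X) : ∃ R ⊆ X, InjOn e R ∧ Sm κ (X \ R : Set Λ) := by
  classical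
  choose! s hs hs' using fun y (hy : y ∈ e '' X) => hy
  let R : Set Λ := s '' (e '' X)
  have hRX : R ⊆ X := by
    rintro _ ⟨y, hy, rfl⟩
    exact hs y hy
  have heR : e '' X ⊆ e '' R := by
    intro y hy
    exact ⟨s y, ⟨y, hy, rfl⟩, hs' y hy⟩
  refine ⟨R, hRX, ?_, ?_⟩
  · rintro _ ⟨y, hy, rfl⟩ _ ⟨z, hz, rfl⟩ heq
    rw [hs' y hy, hs' z hz] at heq
    rw [heq]
  · have h1 : Al κ (π.F (X \ R)) (π.F R) := by
      refine ((he (X \ R) sdiff_subset).1.trans hκ ?_).trans hκ (he R hRX).2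
      exact Al.of_subset ((image_mono sdiff_subset).trans heR)
    have h2 : Sm κ (π.F (X \ R) ∩ π.F R : Set Λ) := by
      refine π.disj hκ ?_
      have : ((X \ R) ∩ R : Set Λ) = ∅ := sdiff_inter_self
      rw [this]
      exact sm_empty
    rw [π.small_iff hκ]
    refine sm_mono ?_ (sm_union hκ h1 h2)
    intro x hx
    by_cases hxR : x ∈ π.F R
    · exact Or.inr ⟨hx, hxR⟩
    · exact Or.inl ⟨hx, hxR⟩

/-- A bad set which avoids a maximal family. -/
theorem max_contra {P : Λ → Λ → Prop} {S : Set (Set Λ)}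
    (hmax : ∀ (Y : Set Λ) (e : Λ → Λ), #Y = κ → Good π e Y → InjOn e Y → (∀ x ∈ Y, P x (e x)) →
      (∀ x ∈ Y, x ∉ ⋃₀ S) → (∀ x ∈ Y, e x ∉ E '' ⋃₀ S) → False)
    {Y : Set Λ} (hY : ∀ x ∈ Y, x ∉ ⋃₀ S ∧ x ∉ π.G (E '' ⋃₀ S)) (hYc : #Y = κ)
    (he : Good π e Y) (hP : ∀ x ∈ Y, P x (e x)) : False := by
  have h1 := he.side' hκ (E '' ⋃₀ S)
  let Y₁ : Set Λ := {x ∈ Y | e x ∉ E '' ⋃₀ S}
  have h2 : ¬ Sm κ Y₁ := by
    intro h
    refine not_small_of hYc (sm_mono ?_ (sm_union hκ h h1))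
    intro x hx
    by_cases h3 : e x ∈ E '' ⋃₀ S
    · exact Or.inr ⟨hx, fun h => (hY x hx).2 (h.2 h3)⟩
    · exact Or.inl ⟨hx, h3⟩
  have h3 : ¬ Sm κ (e '' Y₁) := fun h => h2 (he.small hκ (fun x hx => hx.1) h)
  obtain ⟨C, hC, hCc⟩ := exists_sub h3
  choose! s hs hs' using fun y (hy : y ∈ C) => hC hy
  have h4 : InjOn s C := by
    intro y hy z hz heq
    rw [← hs' y hy, ← hs' z hz, heq]
  have h5 : #(s '' C) = κ := by rw [Cardinal.mk_image_eq_of_injOn _ _ h4, hCc]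
  have h6 : ∀ x ∈ s '' C, x ∈ Y₁ := by
    rintro _ ⟨y, hy, rfl⟩
    exact hs y hy
  refine hmax (s '' C) e h5 (he.mono fun x hx => (h6 x hx).1) ?_ (fun x hx => hP x (h6 x hx).1)
    (fun x hx h => (hY x (h6 x hx).1).1 h) fun x hx => (h6 x hx).2
  rintro _ ⟨y, hy, rfl⟩ _ ⟨z, hz, rfl⟩ heq
  rw [hs' y hy, hs' z hz] at heq
  rw [heq]

include hμ

/-- There are only few disjoint sets with disjoint images where coordinates are not respected. -/
theorem few_members (hπ : LocL μ π) {M : Type u} [Nonempty M] (hM : #M ≤ μ) (T : Λ → Set M)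
    {S : Set (Set Λ)}
    (hS : ∀ Y ∈ S, #Y = κ ∧ Good π E Y ∧ ∀ x ∈ Y, Sc π T (E x) ≠ T x)
    (hd : ∀ Y ∈ S, ∀ Y' ∈ S, Y ≠ Y' → Disjoint Y Y') (hinj : InjOn E (⋃₀ S)) : #S ≤ μ := by
  classical
  have hℵ : ℵ₀ ≤ μ := hκ.trans hμ
  have h1 : ∀ x, ∃ ν : M, Sc π T (E x) ≠ T x → ¬ (ν ∈ Sc π T (E x) ↔ ν ∈ T x) := by
    intro x
    by_cases h : Sc π T (E x) = T x
    · exact ⟨Classical.arbitrary M, fun h' => (h' h).elim⟩
    · by_contra hcon
      push Not at hcon
      exact h (Set.ext fun ν => (hcon ν).2)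
  choose ν hν using h1
  have h2 : #(M × Bool) ≤ #(μ.ord.ToType) := by
    have h3 : #(M × Bool) ≤ μ * μ := by
      rw [Cardinal.mk_prod, Cardinal.lift_uzero]
      refine mul_le_mul' hM ?_
      refine le_trans ?_ hℵ
      simp only [Cardinal.mk_fintype, Fintype.card_bool, Cardinal.lift_natCast]
      exact (Cardinal.natCast_lt_aleph0 (n := 2)).le
    rw [Cardinal.mk_ord_toType]
    exact h3.trans (Cardinal.mul_eq_self hℵ).le
  obtain ⟨c⟩ := h2
  let f : Λ → μ.ord.ToType := fun x => c (ν x, decide (ν x ∈ T x))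
  have hK : #(μ.ord.ToType) ≤ μ := (Cardinal.mk_ord_toType μ).le
  obtain ⟨g', N, hN, hg⟩ := exists_split hκ hμ hπ hK f
  have h4 := few_exact hκ hμ hπ hK hN hg hd (fun Y hY => (hS Y hY).2.1) hinj
  let U₁ : Set Λ := ⋃ p : M × Bool,
    (π.F {z | f z = c p} \ π.F {z | p.1 ∈ T z ↔ p.2 = true} : Set Λ)
  let U₂ : Set Λ := ⋃ n : M, (π.F {z | n ∈ T z} ∩ π.F {z | n ∉ T z} : Set Λ)
  have hU₁ : #U₁ ≤ μ := by
    have h5 : #(M × Bool) ≤ μ := (Cardinal.mk_le_of_injective c.injective).trans hK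
    refine (Cardinal.mk_iUnion_le _).trans ?_
    refine (mul_le_mul' h5 (ciSup_le' fun p => ?_)).trans (Cardinal.mul_eq_self hℵ).le
    have h6 : Al κ (π.F {z | f z = c p}) (π.F {z | p.1 ∈ T z ↔ p.2 = true}) := by
      refine (π.le_iff _ _).1 (Al.of_subset ?_)
      intro z hz
      have h7 : (ν z, decide (ν z ∈ T z)) = p := c.injective hz
      rw [← h7]
      simp
    exact h6.le.trans hμ
  have hU₂ : #U₂ ≤ μ := by
    refine Helper669.KDelta.small_iUnion hℵ hM _ fun n => ?_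
    have h6 : Sm κ (π.F {z | n ∈ T z} ∩ π.F {z | n ∉ T z} : Set Λ) := by
      refine π.disj hκ ?_
      have : ({z | n ∈ T z} ∩ {z | n ∉ T z} : Set Λ) = ∅ := by
        ext z
        simp
      rw [this]
      exact sm_empty
    exact h6.le.trans hμ
  have hU : #(π.G (N ∪ (U₁ ∪ U₂))) ≤ μ := card_G hκ (hπ.loc hμ) μ hμ _
    (card_union hκ hμ hN (card_union hκ hμ hU₁ hU₂))
  have h5 := few_meet hκ hμ hd hU
  refine (Cardinal.mk_le_mk_of_subset (t := {Y ∈ S | ¬ Sm κ {x ∈ Y | g' (E x) ≠ f x}} ∪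
    {Y ∈ S | (Y ∩ π.G (N ∪ (U₁ ∪ U₂))).Nonempty}) ?_).trans (card_union' hℵ h4 h5)
  intro Y hY
  by_cases h6 : Sm κ {x ∈ Y | g' (E x) ≠ f x}
  · refine Or.inr ⟨hY, ?_⟩
    by_contra h7
    have h8 := (hS Y hY).2.1.side' hκ (N ∪ (U₁ ∪ U₂))
    refine not_small_of (hS Y hY).1 (sm_mono ?_ (sm_union hκ h6 h8))
    intro x hx
    by_cases h9 : g' (E x) = f x
    · refine Or.inr ⟨hx, fun h => h7 ⟨x, hx, h.2 ?_⟩⟩
      by_contra h10
      have h11 : E x ∉ N := fun h => h10 (Or.inl h)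
      have h12 : E x ∉ U₁ := fun h => h10 (Or.inr (Or.inl h))
      have h13 : E x ∉ U₂ := fun h => h10 (Or.inr (Or.inr h))
      have h14 : E x ∈ π.F {z | f z = f x} := (hg _ h11 _).1 h9
      have h15 : E x ∈ π.F {z | ν x ∈ T z ↔ decide (ν x ∈ T x) = true} := by
        by_contra h16
        exact h12 (mem_iUnion.2 ⟨(ν x, decide (ν x ∈ T x)), h14, h16⟩)
      have h16 := hν x ((hS Y hY).2.2 x hx)
      by_cases h17 : ν x ∈ T x
      · have h18 : {z | ν x ∈ T z ↔ decide (ν x ∈ T x) = true} = {z | ν x ∈ T z} := by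
          ext z
          simp [h17]
        rw [h18] at h15
        exact h16 ⟨fun _ => h17, fun _ => h15⟩
      · have h18 : {z | ν x ∈ T z ↔ decide (ν x ∈ T x) = true} = {z | ν x ∉ T z} := by
          ext z
          simp [h17]
        rw [h18] at h15
        refine h16 ⟨fun h19 => ?_, fun h => (h17 h).elim⟩
        exact (h13 (mem_iUnion.2 ⟨ν x, h19, h15⟩)).elim
    · exact Or.inl ⟨hx, h9⟩
  · exact Or.inl ⟨hY, h6⟩

/-- Sets whose points are coded by subsets of a set of size at most `μ`. -/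
theorem tr_of_codes (hπ : LocL μ π) {M : Type u} [Nonempty M] (hM : #M ≤ μ) (T : Λ → Set M)
    (hT : InjOn T X) : Tr π X := by
  classical
  have hℵ : ℵ₀ ≤ μ := hκ.trans hμ
  obtain ⟨S, E, hS, hd, hinj, hmax⟩ := exists_max hκ π fun x y => Sc π T y ≠ T x
  have hSc : #S ≤ μ := few_members hκ hμ hπ hM T hS hd hinj
  have hSU : #(⋃₀ S : Set Λ) ≤ μ := by
    refine (card_sUnion fun Y hY => ((hS Y hY).1.le.trans hμ)).trans ?_
    exact (mul_le_mul_left hSc μ).trans (Cardinal.mul_eq_self hℵ).le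
  have hN : #(⋃₀ S ∪ π.G (E '' ⋃₀ S) : Set Λ) ≤ μ :=
    card_union hκ hμ hSU (card_G hκ (hπ.loc hμ) μ hμ _ (Cardinal.mk_image_le.trans hSU))
  refine Tr.of_remove hκ (N := ⋃₀ S ∪ π.G (E '' ⋃₀ S)) ?_ (hπ _ hN)
  refine final_thread hκ T (hπ.loc hμ) (hT.mono sdiff_subset) ?_
  rintro Y hY ⟨hYc, e, he, hP⟩
  exact max_contra hκ (P := fun x y => Sc π T y ≠ T x) hmax (fun x hx => ⟨fun h => (hY hx).2 (Or.inl h),
    fun h => (hY hx).2 (Or.inr h)⟩) hYc he hP

/-- Unions of at most `μ` pieces. -/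
theorem tr_of_pieces (hπ : LocL μ π) {K : Type u} (hK : #K ≤ μ) (g : Λ → K)
    (hg : ∀ i, Tr π {x ∈ X | g x = i}) : Tr π X := by
  classical
  have hℵ : ℵ₀ ≤ μ := hκ.trans hμ
  choose e he using hg
  choose R hRX hRi hRs using fun i => exists_inj hκ (he i)
  let X' : Set Λ := {x ∈ X | x ∈ R (g x)}
  have hXX : #(X \ X' : Set Λ) ≤ μ := by
    refine (Cardinal.mk_le_mk_of_subset (t := ⋃ i, ({x ∈ X | g x = i} \ R i : Set Λ)) ?_).trans
      (Helper669.KDelta.small_iUnion hℵ hK _ fun i => (hRs i).le.trans hμ)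
    rintro x ⟨hx, hx'⟩
    exact mem_iUnion.2 ⟨g x, ⟨hx, rfl⟩, fun h => hx' ⟨hx, h⟩⟩
  refine Tr.of_remove hκ (N := X \ X') ?_ (hπ _ hXX)
  suffices hX' : Tr π X' by
    obtain ⟨e', he'⟩ := hX'
    refine ⟨e', he'.mono ?_⟩
    rintro x ⟨hx, hx'⟩
    by_contra h
    exact hx' ⟨hx, h⟩
  let E₀ : Λ → Λ := fun x => e (g x) x
  have hE₀ : ∀ x y, x ∈ X' → y ∈ X' → g x = g y → E₀ x = E₀ y → x = y := by
    intro x y hx hy hgg heq
    refine hRi (g y) (hgg ▸ hx.2) hy.2 ?_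
    have : e (g x) x = e (g y) y := heq
    rwa [hgg] at this
  obtain ⟨S, E, hS, hd, hinj, hmax⟩ := exists_max hκ π fun x y => x ∈ X' ∧ y ≠ E₀ x
  have hSc : #S ≤ μ := by
    -- the colouring
    let D : Set Λ := {x ∈ ⋃₀ S | ∃ z ∈ X', g z = g x ∧ E₀ z = E x}
    let h : Λ → Λ := fun x => if hx : ∃ z ∈ X', g z = g x ∧ E₀ z = E x then hx.choose else x
    have hspec : ∀ x ∈ D, h x ∈ X' ∧ g (h x) = g x ∧ E₀ (h x) = E x := by
      intro x hx
      have h1 : h x = hx.2.choose := dif_pos hx.2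
      rw [h1]
      exact hx.2.choose_spec
    have hP : ∀ x ∈ ⋃₀ S, x ∈ X' ∧ E x ≠ E₀ x := by
      rintro x ⟨Y, hY, hx⟩
      exact (hS Y hY).2.2 x hx
    obtain ⟨c, hc⟩ := exists_col D h (by
      intro x hx heq
      have h1 := (hspec x hx).2.2
      rw [heq] at h1
      exact (hP x hx.1).2 h1.symm) (by
      intro x hx y hy heq
      have h1 := (hspec x hx).2.2
      have h2 := (hspec y hy).2.2
      rw [heq] at h1
      exact hinj hx.1 hy.1 (h1.symm.trans h2))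
    have h2 : #(Option K × (Bool × Bool)) ≤ #(μ.ord.ToType) := by
      have h3 : #(Option K) ≤ μ := by
        rw [Cardinal.mk_option]
        exact Cardinal.add_le_of_le hℵ hK (Cardinal.one_le_aleph0.trans hℵ)
      have h4 : #(Option K × (Bool × Bool)) ≤ μ * μ := by
        rw [Cardinal.mk_prod, Cardinal.lift_uzero]
        refine mul_le_mul' h3 ?_
        refine le_trans ?_ hℵ
        rw [Cardinal.lift_le_aleph0]
        exact Cardinal.mk_le_aleph0
      rw [Cardinal.mk_ord_toType]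
      exact h4.trans (Cardinal.mul_eq_self hℵ).le
    obtain ⟨ι⟩ := h2
    let f : Λ → μ.ord.ToType := fun x => ι (if x ∈ X' then some (g x) else none, c x)
    have hKμ : #(μ.ord.ToType) ≤ μ := (Cardinal.mk_ord_toType μ).le
    obtain ⟨f', N, hN, hf⟩ := exists_split hκ hμ hπ hKμ f
    have h4 := few_exact hκ hμ hπ hKμ hN hf hd (fun Y hY => (hS Y hY).2.1) hinj
    have hfib : ∀ (i : K) (b : Bool × Bool), {z | f z = ι (some i, b)} =
        {z ∈ X' | g z = i ∧ c z = b} := by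
      intro i b
      ext z
      constructor
      · intro hz
        have h1 : ((if z ∈ X' then some (g z) else none, c z) : Option K × (Bool × Bool)) =
          (some i, b) := ι.injective hz
        have h3 := congrArg Prod.fst h1
        have h5 := congrArg Prod.snd h1
        by_cases hzX : z ∈ X'
        · simp only [hzX, if_true, Option.some.injEq] at h3
          exact ⟨hzX, h3, h5⟩
        · simp [hzX] at h3
      · rintro ⟨hzX, h1, h3⟩
        show ι (if z ∈ X' then some (g z) else none, c z) = ι (some i, b)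
        rw [if_pos hzX, h1, h3]
    let U : Set Λ := ⋃ p : K × (Bool × Bool),
      (π.F {z | f z = ι (some p.1, p.2)} \ E₀ '' {z ∈ X' | g z = p.1 ∧ c z = p.2} : Set Λ)
    have hU : #U ≤ μ := by
      have h5 : #(K × (Bool × Bool)) ≤ μ := by
        refine le_trans ?_ hKμ
        refine Cardinal.mk_le_of_injective (f := fun p : K × (Bool × Bool) => ι (some p.1, p.2)) ?_
        intro p q hpq
        have h6 := ι.injective hpq
        have h7 := congrArg Prod.fst h6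
        have h8 := congrArg Prod.snd h6
        simp only [Option.some.injEq] at h7
        exact Prod.ext h7 h8
      refine Helper669.KDelta.small_iUnion hℵ h5 _ fun p => ?_
      have h6 : Al κ (π.F {z | f z = ι (some p.1, p.2)}) (E₀ '' {z ∈ X' | g z = p.1 ∧ c z = p.2}) := by
        rw [hfib]
        have h7 : ({z ∈ X' | g z = p.1 ∧ c z = p.2} : Set Λ) ⊆ {x ∈ X | g x = p.1} := by
          rintro z ⟨hz, h8, -⟩
          exact ⟨hz.1, h8⟩
        have h8 : E₀ '' {z ∈ X' | g z = p.1 ∧ c z = p.2} =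
            e p.1 '' {z ∈ X' | g z = p.1 ∧ c z = p.2} := by
          refine Set.image_congr ?_
          rintro z ⟨-, h9, -⟩
          show e (g z) z = e p.1 z
          rw [h9]
        rw [h8]
        exact ((he p.1) _ h7).1
      exact h6.le.trans hμ
    have hG : #(π.G (N ∪ U)) ≤ μ := card_G hκ (hπ.loc hμ) μ hμ _ (card_union hκ hμ hN hU)
    have h5 := few_meet hκ hμ hd hG
    refine (Cardinal.mk_le_mk_of_subset (t := {Y ∈ S | ¬ Sm κ {x ∈ Y | f' (E x) ≠ f x}} ∪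
      {Y ∈ S | (Y ∩ π.G (N ∪ U)).Nonempty}) ?_).trans (card_union' hℵ h4 h5)
    intro Y hY
    by_cases h6 : Sm κ {x ∈ Y | f' (E x) ≠ f x}
    · refine Or.inr ⟨hY, ?_⟩
      by_contra h7
      have h8 := (hS Y hY).2.1.side' hκ (N ∪ U)
      refine not_small_of (hS Y hY).1 (sm_mono ?_ (sm_union hκ h6 h8))
      intro x hx
      by_cases h9 : f' (E x) = f x
      · refine Or.inr ⟨hx, fun hh => h7 ⟨x, hx, hh.2 ?_⟩⟩
        by_contra h10
        have h11 : E x ∉ N := fun hh => h10 (Or.inl hh)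
        have h12 : E x ∉ U := fun hh => h10 (Or.inr hh)
        have h14 : E x ∈ π.F {z | f z = f x} := (hf _ h11 _).1 h9
        have hxS : x ∈ ⋃₀ S := ⟨Y, hY, hx⟩
        have hxX : x ∈ X' := (hP x hxS).1
        have hfx : f x = ι (some (g x), c x) := by
          show ι (if x ∈ X' then some (g x) else none, c x) = _
          rw [if_pos hxX]
        rw [hfx] at h14
        have h15 : E x ∈ E₀ '' {z ∈ X' | g z = g x ∧ c z = c x} := by
          by_contra h16
          exact h12 (mem_iUnion.2 ⟨(g x, c x), h14, h16⟩)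
        obtain ⟨z, ⟨hzX, hzg, hzc⟩, hzE⟩ := h15
        have hxD : x ∈ D := ⟨hxS, z, hzX, hzg, hzE⟩
        have h17 := hspec x hxD
        have h18 : h x = z := hE₀ _ _ h17.1 hzX (h17.2.1.trans hzg.symm) (h17.2.2.trans hzE.symm)
        exact hc x hxD (by rw [h18, hzc])
      · exact Or.inl ⟨hx, h9⟩
    · exact Or.inl ⟨hY, h6⟩
  have hSU : #(⋃₀ S : Set Λ) ≤ μ := by
    refine (card_sUnion fun Y hY => ((hS Y hY).1.le.trans hμ)).trans ?_
    exact (mul_le_mul_left hSc μ).trans (Cardinal.mul_eq_self hℵ).le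
  have hN : #(⋃₀ S ∪ π.G (E '' ⋃₀ S) : Set Λ) ≤ μ :=
    card_union hκ hμ hSU (card_G hκ (hπ.loc hμ) μ hμ _ (Cardinal.mk_image_le.trans hSU))
  refine Tr.of_remove hκ (N := ⋃₀ S ∪ π.G (E '' ⋃₀ S)) ?_ (hπ _ hN)
  refine ⟨E₀, good_of_local hκ fun Y hYX hYc => ?_⟩
  obtain ⟨e₁, he₁⟩ := hπ Y (hYc.trans_le hμ)
  refine he₁.congr hκ ?_
  by_contra hcon
  obtain ⟨Y', hY', hYc'⟩ := exists_sub hcon
  refine max_contra hκ (P := fun x y => x ∈ X' ∧ y ≠ E₀ x) hmax (Y := Y') (e := e₁) (fun x hx => ?_) hYc'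
    (he₁.mono fun x hx => (hY' hx).1) (fun x hx => ?_)
  · have h1 := (hYX (hY' hx).1).2
    exact ⟨fun h => h1 (Or.inl h), fun h => h1 (Or.inr h)⟩
  · exact ⟨(hYX (hY' hx).1).1, (hY' hx).2⟩

end

end Pool.Agent.Y678.AU
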