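import Pool.Agent.Y678.AU.Glue

/-!
# Cardinals with the tree property
-/

set_option autoImplicit false
set_option linter.unusedSectionVars false
set_option linter.unusedVariables false
set_option linter.style.haveILetI false

universe u

namespace Pool.Agent.Y678.AU

open Set
open Cardinal hiding univ
open Pool.Agent.W869.AV hiding few_meet card_of_trace few_down exists_many card_G card_F card_union card_al exists_split few_up few_exact few_members tr_univ tr_of_card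

variable {κ μ : Cardinal.{u}} {Λ : Type u} [Fact (ℵ₀ ≤ κ)]

/-- The tree property of the cardinal `c`: a tree of height `c` all of whose levels `T i`, `i < c`,
are nonempty and have fewer than `c` elements has a cofinal branch. The tree is given by its levels
and by the maps `f i j` which send the points of level `j` to their predecessors in level `i`. -/
def TreeProp (c : Cardinal.{u}) : Prop :=
  ∀ (T : c.ord.ToType → Type u) (f : ∀ i j, i ≤ j → T j → T i),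
    (∀ i, Nonempty (T i)) → (∀ i, #(T i) < c) → (∀ i (x : T i), f i i le_rfl x = x) →
    (∀ i j k (hij : i ≤ j) (hjk : j ≤ k) (x : T k),
      f i j hij (f j k hjk x) = f i k (hij.trans hjk) x) →
    ∃ t : ∀ i, T i, ∀ i j (h : i ≤ j), f i j h (t j) = t i

theorem tr_of_tree (hκ : ℵ₀ ≤ κ) {π : Aut κ Λ} {ν : Cardinal.{u}} (hlt : κ < ν)
    (hin : ν.IsInaccessible) (htp : TreeProp ν) (hL : ∀ μ, μ < ν → LocL μ π) {X : Set Λ}
    (hX : #X = ν) : Tr π X := by
  classical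
  have hℵ : ℵ₀ ≤ ν := hin.aleph0_lt.le
  have hW : #(ν.ord.ToType) = ν := Cardinal.mk_ord_toType ν
  haveI : Nonempty ν.ord.ToType := by
    rw [← Cardinal.mk_ne_zero_iff, hW]
    exact (Cardinal.aleph0_pos.trans_le hℵ).ne'
  have hIic : ∀ i : ν.ord.ToType, #(Iic i) < ν := by
    intro i
    have h5 := Cardinal.mk_Iic_lt i (by
      rw [Cardinal.mk_ord_toType]
      exact (Ordinal.type_toType _).symm) (by rw [Cardinal.mk_ord_toType]; exact hℵ)
    rwa [Cardinal.mk_ord_toType] at h5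
  -- sets of size less than `ν` are bounded
  have hbd : ∀ s : Set ν.ord.ToType, #s < ν → ∃ δ, ∀ b ∈ s, b < δ := by
    intro s hs
    by_contra hcon
    push Not at hcon
    have h1 : IsCofinal s := fun a => hcon a
    have h2 := Order.cof_le h1
    rw [Ordinal.cof_toType] at h2
    exact absurd (hin.le_cof_ord.trans h2) (not_le.2 hs)
  obtain ⟨r⟩ : #X ≤ #(ν.ord.ToType) := (hX.trans hW.symm).le
  let rr : Λ → ν.ord.ToType := fun x => if hx : x ∈ X then r ⟨x, hx⟩ else Classical.arbitrary _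
  have hrr : InjOn rr X := by
    intro x hx y hy hxy
    simp only [rr, dif_pos hx, dif_pos hy] at hxy
    exact congrArg Subtype.val (r.injective hxy)
  let XX : ν.ord.ToType → Set Λ := fun i => {x ∈ X | rr x ≤ i}
  have hXX : ∀ i, #(XX i) < ν := by
    intro i
    refine lt_of_le_of_lt ?_ (hIic i)
    refine Cardinal.mk_le_of_injective (f := fun y : XX i => (⟨rr y.1, y.2.2⟩ : Iic i)) ?_
    intro y y' hyy
    exact Subtype.ext (hrr y.2.1 y'.2.1 (congrArg Subtype.val hyy))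
  choose e he using fun i => hL _ (hXX i) (XX i) le_rfl
  have hXXm : ∀ i j, i ≤ j → XX i ⊆ XX j := fun i j hij x hx => ⟨hx.1, hx.2.trans hij⟩
  have hcoh : ∀ i j, i ≤ j → Sm κ {x ∈ XX i | e j x ≠ e i x} := fun i j hij =>
    ((he j).mono (hXXm i j hij)).uniq hκ (he i)
  let V : Set Λ := ⋃ i, e i '' XX i
  have hV : #V ≤ ν := Helper669.KDelta.small_iUnion hℵ hW.le _ fun i =>
    Cardinal.mk_image_le.trans (hXX i).le
  obtain ⟨s⟩ : #V ≤ #(ν.ord.ToType) := hV.trans hW.ge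
  let ss : Λ → ν.ord.ToType := fun x => if hx : x ∈ V then s ⟨x, hx⟩ else Classical.arbitrary _
  have hss : InjOn ss V := by
    intro x hx y hy hxy
    simp only [ss, dif_pos hx, dif_pos hy] at hxy
    exact congrArg Subtype.val (s.injective hxy)
  let PP : (Λ → Λ) → ν.ord.ToType → Set (ν.ord.ToType × ν.ord.ToType) := fun f i =>
    {q | q.1 ≤ i ∧ q.2 ≤ i ∧ ∃ x ∈ X, rr x = q.1 ∧ f x ∈ V ∧ ss (f x) = q.2}
  let T : ν.ord.ToType → Type u := fun i =>
    {P : Set (ν.ord.ToType × ν.ord.ToType) //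
      ∃ f : Λ → Λ, Sm κ {x ∈ XX i | f x ≠ e i x} ∧ P = PP f i}
  let res : ∀ i j, i ≤ j → T j → T i := fun i j hij P => ⟨{q ∈ P.1 | q.1 ≤ i ∧ q.2 ≤ i}, by
    obtain ⟨f, hf, hP⟩ := P.2
    refine ⟨f, sm_mono ?_ (sm_union hκ hf (hcoh i j hij)), ?_⟩
    · rintro x ⟨hx, hne⟩
      by_cases h1 : f x = e j x
      · exact Or.inr ⟨hx, h1 ▸ hne⟩
      · exact Or.inl ⟨hXXm i j hij hx, h1⟩
    · rw [hP]
      ext q
      constructor
      · rintro ⟨⟨-, -, h3⟩, h4, h5⟩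
        exact ⟨h4, h5, h3⟩
      · rintro ⟨h4, h5, h3⟩
        exact ⟨⟨h4.trans hij, h5.trans hij, h3⟩, h4, h5⟩⟩
  obtain ⟨t, ht⟩ := htp T res (fun i => ⟨⟨PP (e i) i, e i, by
      refine sm_mono (t := ∅) ?_ sm_empty
      rintro x ⟨-, h⟩
      exact h rfl, rfl⟩⟩) (fun i => by
      have h1 : #(Iic i × Iic i) < ν := by
        rw [Cardinal.mk_prod, Cardinal.lift_id]
        exact Cardinal.mul_lt_of_lt hℵ (hIic i) (hIic i)
      refine lt_of_le_of_lt ?_ (hin.isStrongPrelimit h1)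
      rw [← Cardinal.mk_set]
      refine Cardinal.mk_le_of_injective
        (f := fun P : T i => {q : Iic i × Iic i | (q.1.1, q.2.1) ∈ P.1}) ?_
      intro P Q hPQ
      obtain ⟨f, -, hP⟩ := P.2
      obtain ⟨f', -, hQ⟩ := Q.2
      refine Subtype.ext (Set.ext fun q => ?_)
      constructor
      · intro hq
        have h2 : q.1 ≤ i ∧ q.2 ≤ i := by
          rw [hP] at hq
          exact ⟨hq.1, hq.2.1⟩
        have h3 : ((⟨q.1, h2.1⟩, ⟨q.2, h2.2⟩) : Iic i × Iic i) ∈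
          {q : Iic i × Iic i | (q.1.1, q.2.1) ∈ P.1} := hq
        exact (Set.ext_iff.1 hPQ (⟨q.1, h2.1⟩, ⟨q.2, h2.2⟩)).1 h3
      · intro hq
        have h2 : q.1 ≤ i ∧ q.2 ≤ i := by
          rw [hQ] at hq
          exact ⟨hq.1, hq.2.1⟩
        have h3 : ((⟨q.1, h2.1⟩, ⟨q.2, h2.2⟩) : Iic i × Iic i) ∈
          {q : Iic i × Iic i | (q.1.1, q.2.1) ∈ Q.1} := hq
        exact (Set.ext_iff.1 hPQ (⟨q.1, h2.1⟩, ⟨q.2, h2.2⟩)).2 h3) (fun i P => by
      obtain ⟨f, -, hP⟩ := P.2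
      refine Subtype.ext (Set.ext fun q => ?_)
      constructor
      · exact fun h => h.1
      · intro h
        refine ⟨h, ?_⟩
        rw [hP] at h
        exact ⟨h.1, h.2.1⟩) (fun i j k hij hjk P => by
      refine Subtype.ext (Set.ext fun q => ?_)
      constructor
      · rintro ⟨⟨h1, -⟩, h2⟩
        exact ⟨h1, h2⟩
      · rintro ⟨h1, h2⟩
        exact ⟨⟨h1, h2.1.trans hij, h2.2.trans hij⟩, h2⟩)
  have hsub : ∀ i j, i ≤ j → (t i).1 ⊆ (t j).1 := by
    intro i j hij q hq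
    rw [← ht i j hij] at hq
    exact hq.1
  have hfun : ∀ i (q q' : ν.ord.ToType × ν.ord.ToType), q ∈ (t i).1 → q' ∈ (t i).1 → q.1 = q'.1 →
      q.2 = q'.2 := by
    intro i q q' hq hq' heq
    obtain ⟨f, -, hP⟩ := (t i).2
    rw [hP] at hq hq'
    obtain ⟨-, -, x, hx, hx1, -, hx2⟩ := hq
    obtain ⟨-, -, y, hy, hy1, -, hy2⟩ := hq'
    have : x = y := hrr hx hy (hx1.trans (heq.trans hy1.symm))
    rw [← hx2, ← hy2, this]
  let E : Λ → Λ := fun x => if h : ∃ y ∈ V, ∃ i, (rr x, ss y) ∈ (t i).1 then h.choose else x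
  refine ⟨E, good_of_local hκ fun Y hYX hY => ?_⟩
  -- the bound
  obtain ⟨δ₀, hδ₀⟩ := hbd (rr '' Y) (Cardinal.mk_image_le.trans_lt (hY.trans_lt hlt))
  have hYδ : Y ⊆ XX δ₀ := fun x hx => ⟨hYX hx, (hδ₀ _ ⟨x, hx, rfl⟩).le⟩
  obtain ⟨δ₁, hδ₁⟩ := hbd ((fun x => ss (e δ₀ x)) '' Y)
    (Cardinal.mk_image_le.trans_lt (hY.trans_lt hlt))
  let δ := max δ₀ δ₁
  obtain ⟨f, hf, hP⟩ := (t δ).2
  refine ((he δ₀).mono hYδ).congr hκ ?_
  refine sm_mono ?_ (sm_union hκ hf (hcoh δ₀ δ (le_max_left _ _)))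
  rintro x ⟨hx, hne⟩
  by_contra hcon
  have h1 : e δ x = e δ₀ x := by
    by_contra h
    exact hcon (Or.inr ⟨hYδ hx, h⟩)
  have h2 : f x = e δ x := by
    by_contra h
    exact hcon (Or.inl ⟨hXXm _ _ (le_max_left _ _) (hYδ hx), h⟩)
  have h3 : f x = e δ₀ x := h2.trans h1
  have h4 : e δ₀ x ∈ V := mem_iUnion.2 ⟨δ₀, x, hYδ hx, rfl⟩
  have h5 : (rr x, ss (e δ₀ x)) ∈ (t δ).1 := by
    rw [hP]
    refine ⟨(hYδ hx).2.trans (le_max_left _ _), ((hδ₁ _ ⟨x, hx, rfl⟩).le).trans (le_max_right _ _),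
      x, hYX hx, rfl, ?_, ?_⟩
    · rw [h3]
      exact h4
    · rw [h3]
  have h6 : ∃ y ∈ V, ∃ i, (rr x, ss y) ∈ (t i).1 := ⟨e δ₀ x, h4, δ, h5⟩
  have h7 : E x = h6.choose := dif_pos h6
  obtain ⟨h8, i, h9⟩ := h6.choose_spec
  have h10 : ss h6.choose = ss (e δ₀ x) := hfun (max i δ) _ _ (hsub _ _ (le_max_left _ _) h9)
    (hsub _ _ (le_max_right _ _) h5) rfl
  apply hne
  rw [h7]
  exact (hss h8 h4 h10).symm

end Pool.Agent.Y678.AU
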